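import Pool.Agent.HIK.Stmts

/-! HIK, row PRM: the primes above a rational prime. -/

set_option autoImplicit false

namespace Pool.Agent.HIK.H90

open Polynomial NumberField Pool.Agent.HIK

theorem span_max (p : ℕ) (hp : p.Prime) : (Ideal.span {(p : ℤ)}).IsMaximal := by
  haveI : (Ideal.span {(p : ℤ)}).IsPrime := by
    rw [Ideal.span_singleton_prime (by exact_mod_cast hp.ne_zero)]
    exact Nat.prime_iff_prime_int.mp hp
  exact Ideal.IsPrime.isMaximal this (by
    rw [Ne, Ideal.span_singleton_eq_bot]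
    exact_mod_cast hp.ne_zero)

theorem ab_sub (K : Type) [Field K] [NumberField K] (p : ℕ) (hp : p.Prime) :
    Ab K p ⊆ (IsDedekindDomain.primesOverFinset (Ideal.span {(p : ℤ)}) (𝓞 K) : Set (Ideal (𝓞 K))) := by
  haveI := span_max p hp
  have h0 : Ideal.span {(p : ℤ)} ≠ ⊥ := by
    rw [Ne, Ideal.span_singleton_eq_bot]
    exact_mod_cast hp.ne_zero
  intro P hP
  obtain ⟨hm, hpP⟩ := hP
  rw [Finset.mem_coe, IsDedekindDomain.mem_primesOverFinset_iff h0]
  refine ⟨hm.isPrime, ?_⟩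
  rw [Ideal.liesOver_iff]
  refine Ideal.IsMaximal.eq_of_le (span_max p hp) ?_ ?_
  · haveI := hm.isPrime
    exact (Ideal.IsPrime.under ℤ P).ne_top
  · rw [Ideal.span_singleton_le_iff_mem]
    show algebraMap ℤ (𝓞 K) (p : ℤ) ∈ P
    simpa using hpP

/-- PRM -/
theorem prm : PrmStmt := by
  intro K _ _ p hp
  haveI := span_max p hp
  have h0 : Ideal.span {(p : ℤ)} ≠ ⊥ := by
    rw [Ne, Ideal.span_singleton_eq_bot]
    exact_mod_cast hp.ne_zero
  have hfin : (Ab K p).Finite := (Finset.finite_toSet _).subset (ab_sub K p hp)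
  refine ⟨hfin, ?_, ?_⟩
  · calc (Ab K p).ncard ≤ ((IsDedekindDomain.primesOverFinset (Ideal.span {(p : ℤ)}) (𝓞 K) :
          Set (Ideal (𝓞 K)))).ncard := Set.ncard_le_ncard (ab_sub K p hp) (Finset.finite_toSet _)
      _ = (IsDedekindDomain.primesOverFinset (Ideal.span {(p : ℤ)}) (𝓞 K)).card :=
          Set.ncard_coe_finset _
      _ ≤ Module.finrank ℚ K := Ideal.card_primesOverFinset_le_finrank (𝓞 K) ℚ K h0
  · intro u hu
    by_contra hcon
    have hne : Ideal.span {u, (p : 𝓞 K)} ≠ ⊤ := by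
      intro ht
      apply hcon
      have h1 : (1 : 𝓞 K) ∈ Ideal.span {u, (p : 𝓞 K)} := by
        rw [ht]
        exact Submodule.mem_top
      rw [Ideal.mem_span_pair] at h1
      obtain ⟨a, b, hab⟩ := h1
      refine ⟨a, ⟨b, ?_⟩⟩
      rw [← hab]
      ring
    obtain ⟨M, hM, hle⟩ := Ideal.exists_le_maximal _ hne
    exact hu M ⟨hM, hle (Ideal.subset_span (by simp))⟩ (hle (Ideal.subset_span (by simp)))

end Pool.Agent.HIK.H90
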